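import Mathlib

universe u

namespace Pool.Agent.Results.MP_54d771_al.MixedBasis

open Polynomial

/-- A square matrix is tridiagonal: nonzero entries only where row and column differ by at
most one. -/
def Tri {K : Type*} [Field K] {n : ℕ} (M : Matrix (Fin n) (Fin n) K) : Prop :=
  ∀ i j : Fin n, M i j ≠ 0 → (i : ℕ) ≤ j + 1 ∧ (j : ℕ) ≤ i + 1

/-- Irreducible tridiagonal: tridiagonal, and all sub- and superdiagonal entries nonzero. -/
def IrrTri {K : Type*} [Field K] {n : ℕ} (M : Matrix (Fin n) (Fin n) K) : Prop :=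
  Tri M ∧ ∀ i j : Fin n, ((i : ℕ) = j + 1 ∨ (j : ℕ) = i + 1) → M i j ≠ 0

section
variable {K : Type*} [Field K] {V : Type*} [AddCommGroup V] [Module K V]

/-- In the ordered basis `b`, `B` is diagonal and `C` is irreducible tridiagonal. -/
def IsStd {d : ℕ} (B C : V →ₗ[K] V) (b : Module.Basis (Fin (d + 1)) K V) : Prop :=
  (LinearMap.toMatrix b b B).IsDiag ∧ IrrTri (LinearMap.toMatrix b b C)

/-- `A, As` is a Leonard pair of diameter `d`. -/
def LeonardPair (d : ℕ) (A As : V →ₗ[K] V) : Prop :=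
  (∃ b : Module.Basis (Fin (d + 1)) K V, IsStd A As b) ∧
  (∃ b : Module.Basis (Fin (d + 1)) K V, IsStd As A b)

/-- All the numbers `a_i` and `a*_i` are zero. -/
def Bipartite (d : ℕ) (A As : V →ₗ[K] V) : Prop :=
  (∀ b : Module.Basis (Fin (d + 1)) K V, IsStd As A b → ∀ i, LinearMap.toMatrix b b A i i = 0) ∧
  (∀ b : Module.Basis (Fin (d + 1)) K V, IsStd A As b → ∀ i, LinearMap.toMatrix b b As i i = 0)

/-- The `i`-th diagonal entry of the matrix of `B` in the basis `b`, for `i ≤ d`. -/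
noncomputable def diagEntry {d : ℕ} (B : V →ₗ[K] V) (b : Module.Basis (Fin (d + 1)) K V)
    (i : ℕ) : K :=
  if h : i < d + 1 then LinearMap.toMatrix b b B ⟨i, h⟩ ⟨i, h⟩ else 0

/-- `θ_i - θ_{i+3} = (q² + q⁻² + 1)(θ_{i+1} - θ_{i+2})` for `0 ≤ i ≤ d - 3`, where `θ_i` is the
`i`-th diagonal entry of `B` in any ordered basis in which `B` is diagonal and `C` is
irreducible tridiagonal. -/
def RatioIs (d : ℕ) (B C : V →ₗ[K] V) (q : K) : Prop :=
  ∀ b : Module.Basis (Fin (d + 1)) K V, IsStd B C b → ∀ i : ℕ, i + 3 ≤ d →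
    diagEntry B b i - diagEntry B b (i + 3)
    = (q ^ 2 + (q ^ 2)⁻¹ + 1) * (diagEntry B b (i + 1) - diagEntry B b (i + 2))

/-- `q` is a parameter of the pair `A, As`. -/
def IsParam (d : ℕ) (A As : V →ₗ[K] V) (q : K) : Prop :=
  q ≠ 0 ∧ RatioIs d A As q ∧ RatioIs d As A q

/-- The ordered basis `v` is admissible for `A, As`: both matrices are tridiagonal with zero
diagonal. -/
def Admissible {d : ℕ} (A As : V →ₗ[K] V) (v : Module.Basis (Fin (d + 1)) K V) : Prop :=
  (Tri (LinearMap.toMatrix v v A) ∧ ∀ i, LinearMap.toMatrix v v A i i = 0) ∧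
  (Tri (LinearMap.toMatrix v v As) ∧ ∀ i, LinearMap.toMatrix v v As i i = 0)

/-- The basis `v` consists of eigenvectors of `f`. -/
def EigenBasis {d : ℕ} (f : V →ₗ[K] V) (v : Module.Basis (Fin (d + 1)) K V) : Prop :=
  ∀ i, ∃ μ : K, f (v i) = μ • v i

/-- The admissible basis `v` consists neither of eigenvectors of `qAA* - q⁻¹A*A` nor of
eigenvectors of `q⁻¹AA* - qA*A`. -/
def Violates {d : ℕ} (A As : V →ₗ[K] V) (v : Module.Basis (Fin (d + 1)) K V) (q : K) : Prop :=
  ¬ EigenBasis (q • (A ∘ₗ As) - q⁻¹ • (As ∘ₗ A)) v ∧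
  ¬ EigenBasis (q⁻¹ • (A ∘ₗ As) - q • (As ∘ₗ A)) v

end

/-- There is a pair of diameter `d` over `K` with parameter `q` as in the question, with an
admissible basis which violates the alternative of Q2 for every parameter `q'` of the pair. -/
def HasCounterexample (K : Type u) [Field K] (d : ℕ) (q : K) : Prop :=
  ∃ A As : (Fin (d + 1) → K) →ₗ[K] (Fin (d + 1) → K),
    LeonardPair d A As ∧ Bipartite d A As ∧ IsParam d A As q ∧
    ∃ v : Module.Basis (Fin (d + 1)) K (Fin (d + 1) → K), Admissible A As v ∧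
      ∀ q' : K, IsParam d A As q' → Violates A As v q'

/-! ### General facts on bases -/

section general
variable {K : Type*} [Field K] {V : Type*} [AddCommGroup V] [Module K V]

/-- Comparison of a basis of eigenvectors with another basis in which the map is diagonal. -/
theorem compare {n : ℕ} (B : V →ₗ[K] V) (bF b : Module.Basis (Fin n) K V) (θ : Fin n → K)
    (hθ : Function.Injective θ) (hB : ∀ j, B (bF j) = θ j • bF j)
    (hb : (LinearMap.toMatrix b b B).IsDiag) :
    ∃ (σ : Fin n → Fin n) (s : Fin n → K), Function.Injective σ ∧ (∀ i, s i ≠ 0) ∧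
      (∀ i, b i = s i • bF (σ i)) := by
  have hev : ∀ i, B (b i) = (LinearMap.toMatrix b b B i i) • b i := by
    intro i
    apply b.repr.injective
    ext k
    rw [← LinearMap.toMatrix_apply, map_smul, Finsupp.smul_apply, Module.Basis.repr_self,
      Finsupp.single_apply]
    by_cases hk : i = k
    · subst hk; simp
    · rw [hb (Ne.symm hk)]; simp [hk]
  have key : ∀ i, ∃ j, ∃ s : K, s ≠ 0 ∧ b i = s • bF j := by
    intro i
    have hne : b i ≠ 0 := b.ne_zero i
    have h1 : bF.repr (b i) ≠ 0 := by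
      intro h; apply hne; apply bF.repr.injective; rw [h, map_zero]
    obtain ⟨j, hj⟩ := Finsupp.ne_iff.mp h1
    rw [Finsupp.zero_apply] at hj
    have hcoord : ∀ k, bF.repr (B (b i)) k = θ k * bF.repr (b i) k := by
      intro k
      conv_lhs => rw [← bF.sum_repr (b i)]
      rw [map_sum, map_sum, Finsupp.finsetSum_apply]
      rw [Finset.sum_eq_single k]
      · rw [map_smul, hB, map_smul, map_smul, Finsupp.smul_apply, Finsupp.smul_apply,
          Module.Basis.repr_self, Finsupp.single_eq_same]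
        simp only [smul_eq_mul]; ring
      · intro l _ hl
        rw [map_smul, hB, map_smul, map_smul, Finsupp.smul_apply, Finsupp.smul_apply,
          Module.Basis.repr_self, Finsupp.single_apply, if_neg hl]
        simp
      · intro h; exact absurd (Finset.mem_univ _) h
    have hμ : ∀ k, θ k * bF.repr (b i) k
        = LinearMap.toMatrix b b B i i * bF.repr (b i) k := by
      intro k
      rw [← hcoord k, hev i, map_smul, Finsupp.smul_apply, smul_eq_mul]
    have hμj : θ j = LinearMap.toMatrix b b B i i := mul_right_cancel₀ hj (hμ j)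
    refine ⟨j, bF.repr (b i) j, hj, ?_⟩
    apply bF.repr.injective
    ext k
    rw [map_smul, Finsupp.smul_apply, Module.Basis.repr_self, Finsupp.single_apply]
    by_cases hk : j = k
    · subst hk; simp
    · simp only [hk, if_false, smul_zero]
      by_contra hne2
      have : θ k = θ j := by
        rw [hμj]; exact mul_right_cancel₀ hne2 (hμ k)
      exact hk (hθ this).symm
  choose σ s hs hbs using key
  refine ⟨σ, s, ?_, hs, hbs⟩
  intro i k hik
  by_contra hne
  have h1 : s k • b i = s i • b k := by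
    rw [hbs i, hbs k, hik, smul_smul, smul_smul, mul_comm]
  have h2 := congrArg (fun x => b.repr x i) h1
  simp only [map_smul, Finsupp.smul_apply, Module.Basis.repr_self, Finsupp.single_apply] at h2
  rw [if_neg (Ne.symm hne)] at h2
  simp only [if_true, smul_eq_mul, mul_one, mul_zero] at h2
  exact hs k h2

theorem matrix_rel {n : ℕ} (C : V →ₗ[K] V) (bF b : Module.Basis (Fin n) K V)
    (σ : Fin n → Fin n) (s : Fin n → K) (hσ : Function.Injective σ)
    (hb : ∀ i, b i = s i • bF (σ i)) (k i : Fin n) :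
    s k * LinearMap.toMatrix b b C k i = s i * LinearMap.toMatrix bF bF C (σ k) (σ i) := by
  have h1 : bF.repr (C (b i)) (σ k) = s i * LinearMap.toMatrix bF bF C (σ k) (σ i) := by
    rw [hb i, map_smul, map_smul, Finsupp.smul_apply, LinearMap.toMatrix_apply, smul_eq_mul]
  rw [← h1]
  conv_rhs => rw [← b.sum_repr (C (b i))]
  rw [map_sum, Finsupp.finsetSum_apply, Finset.sum_eq_single k]
  · rw [map_smul, Finsupp.smul_apply, LinearMap.toMatrix_apply]
    conv_rhs => rw [hb k]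
    rw [map_smul, Finsupp.smul_apply, Module.Basis.repr_self, Finsupp.single_eq_same]
    simp only [smul_eq_mul]; ring
  · intro l _ hl
    conv_lhs => rw [hb l]
    rw [map_smul, map_smul, Finsupp.smul_apply, Finsupp.smul_apply, Module.Basis.repr_self,
      Finsupp.single_apply, if_neg (fun h => hl (hσ h))]
    simp
  · intro h; exact absurd (Finset.mem_univ _) h

/-- An injective walk with steps `±1` on `{0, …, d}` of length `d` is the identity or the
reversal. -/
theorem walk {d : ℕ} (σ : Fin (d + 1) → Fin (d + 1)) (hσ : Function.Injective σ)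
    (hstep : ∀ i : ℕ, ∀ h : i + 1 < d + 1,
      ((σ ⟨i + 1, h⟩ : ℕ) = σ ⟨i, by omega⟩ + 1 ∨ (σ ⟨i, by omega⟩ : ℕ) = σ ⟨i + 1, h⟩ + 1)) :
    (∀ i, (σ i : ℕ) = i) ∨ (∀ i, (σ i : ℕ) + i = d) := by
  rcases Nat.eq_zero_or_pos d with hd | hd
  · subst hd; left; intro i; have := (σ i).isLt; have := i.isLt; omega
  · have h01 := hstep 0 (by omega)
    rcases h01 with h01 | h01
    · left
      have key : ∀ i : ℕ, ∀ h : i + 1 < d + 1, (σ ⟨i + 1, h⟩ : ℕ) = σ ⟨i, by omega⟩ + 1 := by
        intro i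
        induction i with
        | zero => intro h; exact h01
        | succ m ih =>
          intro h
          rcases hstep (m + 1) h with h2 | h2
          · exact h2
          · exfalso
            have h3 := ih (by omega)
            have h4 : σ ⟨m + 1 + 1, h⟩ = σ ⟨m, by omega⟩ := by
              apply Fin.ext; omega
            have h5 := congrArg Fin.val (hσ h4)
            simp only at h5
            omega
      have hlin : ∀ i : ℕ, ∀ h : i < d + 1, (σ ⟨i, h⟩ : ℕ) = σ ⟨0, by omega⟩ + i := by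
        intro i
        induction i with
        | zero => intro h; rfl
        | succ m ih => intro h; rw [key m h, ih (by omega)]; ring
      have hd' := hlin d (by omega)
      have := (σ ⟨d, by omega⟩).isLt
      intro i
      have := hlin i i.isLt
      rw [show (⟨(i : ℕ), i.isLt⟩ : Fin (d + 1)) = i from rfl] at this
      omega
    · right
      have key : ∀ i : ℕ, ∀ h : i + 1 < d + 1, (σ ⟨i, by omega⟩ : ℕ) = σ ⟨i + 1, h⟩ + 1 := by
        intro i
        induction i with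
        | zero => intro h; exact h01
        | succ m ih =>
          intro h
          rcases hstep (m + 1) h with h2 | h2
          · exfalso
            have h3 := ih (by omega)
            have h4 : σ ⟨m + 1 + 1, h⟩ = σ ⟨m, by omega⟩ := by
              apply Fin.ext; omega
            have h5 := congrArg Fin.val (hσ h4)
            simp only at h5
            omega
          · exact h2
      have hlin : ∀ i : ℕ, ∀ h : i < d + 1, (σ ⟨i, h⟩ : ℕ) + i = σ ⟨0, by omega⟩ := by
        intro i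
        induction i with
        | zero => intro h; rfl
        | succ m ih => intro h; have := key m h; have := ih (by omega); omega
      have hd' := hlin d (by omega)
      have := (σ ⟨0, by omega⟩).isLt
      intro i
      have := hlin i i.isLt
      rw [show (⟨(i : ℕ), i.isLt⟩ : Fin (d + 1)) = i from rfl] at this
      omega

/-- Consequences of having one good basis of eigenvectors. -/
theorem std_of_data {d : ℕ} (B C : V →ₗ[K] V) (bF : Module.Basis (Fin (d + 1)) K V)
    (θ : Fin (d + 1) → K) (hθ : Function.Injective θ) (hB : ∀ j, B (bF j) = θ j • bF j)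
    (hC : ∀ k j : Fin (d + 1), LinearMap.toMatrix bF bF C k j ≠ 0 ↔
      ((k : ℕ) = j + 1 ∨ (j : ℕ) = k + 1)) :
    IsStd B C bF ∧
    (∀ b : Module.Basis (Fin (d + 1)) K V, IsStd B C b →
      (∀ i, LinearMap.toMatrix b b C i i = 0) ∧
      ((∀ i, LinearMap.toMatrix b b B i i = θ i) ∨
       (∀ i : Fin (d + 1), LinearMap.toMatrix b b B i i = θ ⟨d - i, by omega⟩))) := by
  have hBm : ∀ k j, LinearMap.toMatrix bF bF B k j = if k = j then θ j else 0 := by
    intro k j
    rw [LinearMap.toMatrix_apply, hB, map_smul, Finsupp.smul_apply, Module.Basis.repr_self,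
      Finsupp.single_apply]
    by_cases h : j = k
    · simp [h]
    · rw [if_neg h, if_neg (Ne.symm h)]; simp
  refine ⟨⟨?_, ?_, ?_⟩, ?_⟩
  · intro k j hkj
    rw [hBm, if_neg hkj]
  · intro k j hkj
    rcases (hC k j).mp hkj with h | h <;> omega
  · intro k j h
    exact (hC k j).mpr h
  · intro b hb
    obtain ⟨σ, s, hσ, hs, hbs⟩ := compare B bF b θ hθ hB hb.1
    have hrel := fun (C' : V →ₗ[K] V) k i => matrix_rel C' bF b σ s hσ hbs k i
    have hBd : ∀ i, LinearMap.toMatrix b b B i i = θ (σ i) := by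
      intro i
      have := hrel B i i
      rw [hBm, if_pos rfl] at this
      exact mul_left_cancel₀ (hs i) this
    constructor
    · intro i
      have h1 := hrel C i i
      have h2 : LinearMap.toMatrix bF bF C (σ i) (σ i) = 0 := by
        by_contra h
        rcases (hC _ _).mp h with h' | h' <;> omega
      rw [h2, mul_zero] at h1
      exact (mul_eq_zero.mp h1).resolve_left (hs i)
    · have hw := walk σ hσ (by
        intro i h
        have h1 := hb.2.2 ⟨i + 1, h⟩ ⟨i, by omega⟩ (Or.inl rfl)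
        have h2 := hrel C ⟨i + 1, h⟩ ⟨i, by omega⟩
        have h3 : LinearMap.toMatrix bF bF C (σ ⟨i + 1, h⟩) (σ ⟨i, by omega⟩) ≠ 0 := by
          intro h4
          rw [h4, mul_zero] at h2
          rcases mul_eq_zero.mp h2 with h5 | h5
          · exact hs _ h5
          · exact h1 h5
        exact (hC _ _).mp h3)
      rcases hw with hw | hw
      · left
        intro i
        rw [hBd i]
        congr 1
        exact Fin.ext (hw i)
      · right
        intro i
        rw [hBd i]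
        congr 1
        apply Fin.ext
        have := hw i
        simp only
        omega

end general

/-! ### The polynomial model -/

section model
variable {K : Type*} [Field K]

/-- The matrix of `z ^ n ↦ (r ^ n - 1) z ^ (n-1) - a (r ^ n - r ^ d) z ^ (n+1)`. -/
def TM (d : ℕ) (a r : K) : Matrix (Fin (d + 1)) (Fin (d + 1)) K := fun i j =>
  if (i : ℕ) + 1 = j then r ^ (j : ℕ) - 1
  else if (i : ℕ) = j + 1 then -a * (r ^ (j : ℕ) - r ^ d) else 0

/-- Vector of coefficients. -/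
def vec (d : ℕ) (F : K[X]) : Fin (d + 1) → K := fun i => F.coeff i

theorem TM_mulVec (d : ℕ) (a r : K) (F : K[X]) (hF : F.natDegree ≤ d) (i : Fin (d + 1)) :
    (TM d a r).mulVec (vec d F) i = (r ^ ((i : ℕ) + 1) - 1) * F.coeff (i + 1)
      - (if (i : ℕ) = 0 then 0 else a * (r ^ ((i : ℕ) - 1) - r ^ d) * F.coeff (i - 1)) := by
  unfold Matrix.mulVec dotProduct TM vec
  have h1 : ∀ j : Fin (d + 1), (if (i : ℕ) + 1 = j then r ^ (j : ℕ) - 1
      else if (i : ℕ) = j + 1 then -a * (r ^ (j : ℕ) - r ^ d) else 0) * F.coeff j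
      = (fun j : ℕ => (if (i : ℕ) + 1 = j then (r ^ (j : ℕ) - 1) * F.coeff j else 0)
        + (if (i : ℕ) = j + 1 then -a * (r ^ (j : ℕ) - r ^ d) * F.coeff j else 0)) j := by
    intro j
    simp only
    by_cases h1 : (i : ℕ) + 1 = j
    · have h2 : ¬ ((i : ℕ) = j + 1) := by omega
      rw [if_pos h1, if_pos h1, if_neg h2, add_zero]
    · by_cases h2 : (i : ℕ) = j + 1
      · rw [if_neg h1, if_neg h1, if_pos h2, if_pos h2, zero_add]
      · rw [if_neg h1, if_neg h1, if_neg h2, if_neg h2, zero_add, zero_mul]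
  rw [Finset.sum_congr rfl (fun j _ => h1 j),
    Fin.sum_univ_eq_sum_range (fun j : ℕ =>
      (if (i : ℕ) + 1 = j then (r ^ (j : ℕ) - 1) * F.coeff j else 0)
        + (if (i : ℕ) = j + 1 then -a * (r ^ (j : ℕ) - r ^ d) * F.coeff j else 0)) (d + 1),
    Finset.sum_add_distrib, Finset.sum_ite_eq]
  have e1 : (if (i : ℕ) + 1 ∈ Finset.range (d + 1) then
      (r ^ ((i : ℕ) + 1) - 1) * F.coeff ((i : ℕ) + 1) else 0)
      = (r ^ ((i : ℕ) + 1) - 1) * F.coeff (i + 1) := by
    split_ifs with h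
    · rfl
    · rw [Polynomial.coeff_eq_zero_of_natDegree_lt]
      · ring
      · rw [Finset.mem_range] at h; omega
  have hi := i.isLt
  have e2 : (∑ j ∈ Finset.range (d + 1),
      (if (i : ℕ) = j + 1 then -a * (r ^ (j : ℕ) - r ^ d) * F.coeff j else 0))
      = -(if (i : ℕ) = 0 then 0 else a * (r ^ ((i : ℕ) - 1) - r ^ d) * F.coeff (i - 1)) := by
    by_cases h : (i : ℕ) = 0
    · rw [if_pos h, neg_zero]
      apply Finset.sum_eq_zero
      intro j _
      rw [if_neg (by omega)]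
    · rw [if_neg h, Finset.sum_eq_single ((i : ℕ) - 1)]
      · rw [if_pos (by omega)]; ring
      · intro j _ hj
        rw [if_neg (by omega)]
      · intro hj; rw [Finset.mem_range] at hj; omega
  rw [e1, e2]
  exact (sub_eq_add_neg _ _).symm

theorem TM_vec (d : ℕ) (a r : K) (F P : K[X]) (hF : F.natDegree ≤ d)
    (h : X * P = (1 - C a * X ^ 2) * F.comp (C r * X) - (1 - C (a * r ^ d) * X ^ 2) * F) :
    (TM d a r).mulVec (vec d F) = vec d P := by
  funext i
  rw [TM_mulVec d a r F hF i]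
  have hc := congrArg (fun Q => Polynomial.coeff Q ((i : ℕ) + 1)) h
  simp only [coeff_X_mul] at hc
  unfold vec
  rw [hc, coeff_sub, sub_mul (1 : K[X]), sub_mul (1 : K[X]), one_mul, one_mul, coeff_sub,
    coeff_sub, mul_assoc (C a), mul_assoc (C (a * r ^ d)), coeff_C_mul, coeff_C_mul,
    comp_C_mul_X_coeff]
  by_cases h0 : (i : ℕ) = 0
  · rw [if_pos h0, h0]
    rw [coeff_X_pow_mul', coeff_X_pow_mul']
    simp only [show ¬ (2 ≤ 0 + 1) by omega, if_false]
    ring
  · rw [if_neg h0]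
    obtain ⟨m, hm⟩ : ∃ m, (i : ℕ) = m + 1 := ⟨i - 1, by omega⟩
    rw [hm, show m + 1 + 1 = m + 2 from rfl, coeff_X_pow_mul, coeff_X_pow_mul,
      comp_C_mul_X_coeff, Nat.add_sub_cancel]
    ring

/-- `∏_{k<j} (1 + c r^k z)`. -/
noncomputable def PP (c r : K) (j : ℕ) : K[X] :=
  ∏ k ∈ Finset.range j, (1 + C (c * r ^ k) * X)

theorem PP_succ (c r : K) (j : ℕ) : PP c r (j + 1) = PP c r j * (1 + C (c * r ^ j) * X) := by
  unfold PP; rw [Finset.prod_range_succ]

theorem PP_shift (c r : K) (j : ℕ) :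
    (1 + C c * X) * (PP c r j).comp (C r * X) = PP c r j * (1 + C (c * r ^ j) * X) := by
  induction j with
  | zero => simp [PP]
  | succ j ih =>
    rw [PP_succ, mul_comp, ← mul_assoc, ih]
    simp only [add_comp, mul_comp, one_comp, C_comp, X_comp]
    rw [pow_succ, ← mul_assoc c, C_mul (a := c * r ^ j)]
    ring

theorem PP_unshift (c r : K) (hr : r ≠ 0) (j : ℕ) :
    (PP c r (j + 1)).comp (C r⁻¹ * X) = (1 + C (c * r⁻¹) * X) * PP c r j := by
  induction j with
  | zero => simp [PP, mul_assoc]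
  | succ j ih =>
    rw [PP_succ c r (j + 1), mul_comp, ih, PP_succ c r j]
    simp only [add_comp, mul_comp, one_comp, C_comp, X_comp]
    have h1 : C (c * r ^ (j + 1)) * (C r⁻¹ * X) = C (c * r ^ j) * X := by
      rw [← mul_assoc, ← C_mul]
      congr 2
      rw [pow_succ]
      field_simp
    rw [h1]
    ring

theorem PP_natDegree (c r : K) (j : ℕ) : (PP c r j).natDegree ≤ j := by
  induction j with
  | zero => simp [PP]
  | succ j ih =>
    rw [PP_succ]
    refine (natDegree_mul_le).trans ?_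
    have : (1 + C (c * r ^ j) * X : K[X]).natDegree ≤ 1 := by
      refine (natDegree_add_le _ _).trans ?_
      simp only [natDegree_one, Nat.zero_le, sup_of_le_right]
      exact natDegree_C_mul_le _ _ |>.trans natDegree_X_le
    omega

theorem PP_coeff_zero (c r : K) (j : ℕ) : (PP c r j).coeff 0 = 1 := by
  induction j with
  | zero => simp [PP]
  | succ j ih => rw [PP_succ, mul_coeff_zero, ih]; simp

/-- The eigenvectors, as polynomials. -/
noncomputable def FF (d : ℕ) (c r : K) (j : ℕ) : K[X] := PP c r j * PP (-c) r (d - j)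

theorem FF_natDegree (d : ℕ) (c r : K) (j : ℕ) (hj : j ≤ d) : (FF d c r j).natDegree ≤ d := by
  unfold FF
  refine natDegree_mul_le.trans ?_
  have := PP_natDegree c r j
  have := PP_natDegree (-c) r (d - j)
  omega

theorem FF_eig (d : ℕ) (c r : K) (j : ℕ) (hj : j ≤ d) :
    (TM d (c ^ 2) r).mulVec (vec d (FF d c r j))
      = (c * (r ^ j - r ^ (d - j))) • vec d (FF d c r j) := by
  have hT := TM_vec d (c ^ 2) r (FF d c r j) (C (c * (r ^ j - r ^ (d - j))) * FF d c r j)
    (FF_natDegree d c r j hj) ?_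
  · rw [hT]
    funext i
    simp only [vec, coeff_C_mul, Pi.smul_apply, smul_eq_mul]
  · have h1 := PP_shift c r j
    have h2 := PP_shift (-c) r (d - j)
    have e1 : (1 - C (c ^ 2) * X ^ 2 : K[X]) = (1 + C c * X) * (1 + C (-c) * X) := by
      rw [C_neg, C_pow]; ring
    have e2 : (1 - C (c ^ 2) * X ^ 2 : K[X]) * (FF d c r j).comp (C r * X)
        = (PP c r j * (1 + C (c * r ^ j) * X)) *
          (PP (-c) r (d - j) * (1 + C (-c * r ^ (d - j)) * X)) := by
      rw [← h1, ← h2, e1]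
      unfold FF
      rw [mul_comp]
      ring
    rw [e2]
    unfold FF
    obtain ⟨l, hl⟩ : ∃ l, d = j + l := ⟨d - j, by omega⟩
    have hdl : d - j = l := by omega
    rw [hdl, hl]
    simp only [C_mul, C_sub, C_pow, C_neg, pow_add]
    ring

theorem vec_lin (d : ℕ) (x y : K) (P Q : K[X]) :
    vec d (C x * P + C y * Q) = x • vec d P + y • vec d Q := by
  funext i; simp [vec]

theorem FF_act_zero (d : ℕ) (c r : K) (hr : r ≠ 0) (hd : 1 ≤ d) :
    (TM d (-c ^ 2 * r ^ (d - 1)) r⁻¹).mulVec (vec d (FF d c r 0))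
      = (c * r⁻¹ * (r ^ d - 1)) • vec d (FF d c r 1) := by
  obtain ⟨e, he⟩ : ∃ e : K, c = r * e := ⟨c * r⁻¹, by field_simp⟩
  have her : c * r⁻¹ = e := by rw [he]; field_simp
  obtain ⟨D, hD⟩ : ∃ D, d = D + 1 := ⟨d - 1, by omega⟩
  have hconst : -c ^ 2 * r ^ (d - 1) * r⁻¹ ^ d = -(r * e ^ 2) := by
    rw [hD, Nat.add_sub_cancel, he, inv_pow]
    field_simp
    ring
  have hconst2 : -c ^ 2 * r ^ (d - 1) = -(r ^ 2 * e ^ 2 * r ^ D) := by
    rw [hD, Nat.add_sub_cancel, he]; ring
  have h0 := vec_lin d (e * (r ^ d - 1)) 0 (FF d c r 1) 0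
  rw [zero_smul, add_zero] at h0
  rw [her, ← h0]
  apply TM_vec
  · exact FF_natDegree d c r 0 (by omega)
  · have e0 : FF d c r 0 = PP (-c) r D * (1 + C (-c * r ^ D) * X) := by
      unfold FF; rw [hD, Nat.sub_zero, PP_succ]; simp [PP]
    have e1 : FF d c r 1 = PP (-c) r D * (1 + C c * X) := by
      unfold FF; rw [hD, Nat.add_sub_cancel, PP_succ]; simp [PP]; ring
    have e2 : (FF d c r 0).comp (C r⁻¹ * X) = (1 + C (-e) * X) * PP (-c) r D := by
      rw [← her, ← neg_mul, ← PP_unshift (-c) r hr D]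
      unfold FF; rw [hD, Nat.sub_zero]; simp [PP]
    rw [e2, e1, hconst, hconst2, e0, he, hD]
    simp only [C_mul, C_sub, C_pow, C_neg, pow_succ, C_1, C_0]
    ring

theorem FF_symm (d : ℕ) (c r : K) (j : ℕ) (hj : j ≤ d) :
    FF d c r j = FF d (-c) r (d - j) := by
  unfold FF
  rw [neg_neg, Nat.sub_sub_self hj, mul_comm]

theorem FF_act_top (d : ℕ) (c r : K) (hr : r ≠ 0) (hd : 1 ≤ d) :
    (TM d (-c ^ 2 * r ^ (d - 1)) r⁻¹).mulVec (vec d (FF d c r d))
      = (-(c * r⁻¹ * (r ^ d - 1))) • vec d (FF d c r (d - 1)) := by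
  rw [FF_symm d c r d le_rfl, FF_symm d c r (d - 1) (by omega), Nat.sub_self,
    show d - (d - 1) = 1 by omega]
  have h := FF_act_zero d (-c) r hr hd
  rw [neg_sq] at h
  rw [h]
  congr 1
  ring

theorem FF_act_mid (d : ℕ) (c r : K) (hr : r ≠ 0) (s t : ℕ) (hd : s + t + 2 = d)
    (hne : r ^ (s + 1) + r ^ (t + 1) ≠ 0) :
    (TM d (-c ^ 2 * r ^ (d - 1)) r⁻¹).mulVec (vec d (FF d c r (s + 1)))
      = (c * r⁻¹ * (r ^ (2 * (t + 1)) - 1) / (r ^ (s + 1) + r ^ (t + 1))) • vec d (FF d c r (s + 2))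
        + (c * r⁻¹ * (1 - r ^ (2 * (s + 1))) / (r ^ (s + 1) + r ^ (t + 1))) •
          vec d (FF d c r s) := by
  obtain ⟨e, he⟩ : ∃ e : K, c = r * e := ⟨c * r⁻¹, by field_simp⟩
  have her : c * r⁻¹ = e := by rw [he]; field_simp
  have hd1 : d - 1 = s + t + 1 := by omega
  have hconst : -c ^ 2 * r ^ (d - 1) * r⁻¹ ^ d = -(r * e ^ 2) := by
    rw [hd1, ← hd, he, inv_pow, show s + t + 2 = (s + t + 1) + 1 from rfl, pow_succ r (s + t + 1)]
    field_simp
  have hconst2 : -c ^ 2 * r ^ (d - 1) = -(r ^ 3 * e ^ 2 * r ^ s * r ^ t) := by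
    rw [hd1, he]; ring
  rw [← vec_lin]
  apply TM_vec
  · exact FF_natDegree d c r _ (by omega)
  · have e0 : FF d c r (s + 1) = PP c r s * PP (-c) r t *
        ((1 + C (c * r ^ s) * X) * (1 + C (-c * r ^ t) * X)) := by
      unfold FF; rw [show d - (s + 1) = t + 1 by omega, PP_succ, PP_succ]; ring
    have e1 : FF d c r (s + 2) = PP c r s * PP (-c) r t *
        ((1 + C (c * r ^ s) * X) * (1 + C (c * r ^ (s + 1)) * X)) := by
      unfold FF
      rw [show d - (s + 2) = t by omega, show s + 2 = s + 1 + 1 from rfl, PP_succ, PP_succ]; ring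
    have e2 : FF d c r s = PP c r s * PP (-c) r t *
        ((1 + C (-c * r ^ t) * X) * (1 + C (-c * r ^ (t + 1)) * X)) := by
      unfold FF
      rw [show d - s = t + 1 + 1 by omega, PP_succ, PP_succ]; ring
    have e3 : (FF d c r (s + 1)).comp (C r⁻¹ * X)
        = PP c r s * PP (-c) r t * ((1 + C e * X) * (1 + C (-e) * X)) := by
      unfold FF
      rw [show d - (s + 1) = t + 1 by omega, mul_comp, PP_unshift c r hr, PP_unshift (-c) r hr,
        neg_mul, her]
      ring
    rw [e3, e0, e1, e2, hconst, hconst2, her]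
    have hCne : (C (r ^ (s + 1) + r ^ (t + 1)) : K[X]) ≠ 0 := by
      rwa [Ne, C_eq_zero]
    apply mul_left_cancel₀ hCne
    have f1 : (C (r ^ (s + 1) + r ^ (t + 1)) : K[X]) *
        C (e * (r ^ (2 * (t + 1)) - 1) / (r ^ (s + 1) + r ^ (t + 1)))
        = C (e * (r ^ (2 * (t + 1)) - 1)) := by
      rw [← C_mul]; congr 1; field_simp
    have f2 : (C (r ^ (s + 1) + r ^ (t + 1)) : K[X]) *
        C (e * (1 - r ^ (2 * (s + 1))) / (r ^ (s + 1) + r ^ (t + 1)))
        = C (e * (1 - r ^ (2 * (s + 1)))) := by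
      rw [← C_mul]; congr 1; field_simp
    set G := PP c r s * PP (-c) r t
    have : ∀ (Q1 Q2 : K[X]), (C (r ^ (s + 1) + r ^ (t + 1)) : K[X]) *
        (X * (C (e * (r ^ (2 * (t + 1)) - 1) / (r ^ (s + 1) + r ^ (t + 1))) * (G * Q1) +
          C (e * (1 - r ^ (2 * (s + 1))) / (r ^ (s + 1) + r ^ (t + 1))) * (G * Q2)))
        = G * X * (C (e * (r ^ (2 * (t + 1)) - 1)) * Q1 + C (e * (1 - r ^ (2 * (s + 1)))) * Q2) := by
      intro Q1 Q2
      rw [← f1, ← f2]; ring
    rw [this, he]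
    simp only [C_mul, C_sub, C_add, C_pow, C_neg, pow_succ, C_1, pow_mul]
    ring

/-- Distinctness of the eigenvalues. -/
theorem theta_inj (d : ℕ) (c r : K) (hr : r ≠ 0) (hc : c ≠ 0)
    (h1 : ∀ k, 1 ≤ k → k ≤ d → r ^ k ≠ 1) (h2 : ∀ k, k + 1 ≤ d → r ^ k ≠ -1) :
    Function.Injective (fun j : Fin (d + 1) => c * (r ^ (j : ℕ) - r ^ (d - (j : ℕ)))) := by
  have key : ∀ j k : ℕ, j < k → k ≤ d →
      c * (r ^ j - r ^ (d - j)) ≠ c * (r ^ k - r ^ (d - k)) := by
    intro j k hjk hkd h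
    have h3 := mul_left_cancel₀ hc h
    obtain ⟨m, hm⟩ : ∃ m, k = j + m := ⟨k - j, by omega⟩
    have hm1 : 1 ≤ m := by omega
    have e1 : d - j = (d - k) + m := by omega
    have h4 : (r ^ m - 1) * (r ^ j + r ^ (d - k)) = 0 := by
      rw [e1, hm, pow_add, pow_add] at h3
      have : d - (j + m) = d - k := by omega
      rw [this] at h3
      linear_combination -h3
    rcases mul_eq_zero.mp h4 with h5 | h5
    · exact h1 m hm1 (by omega) (sub_eq_zero.mp h5)
    · rcases le_total j (d - k) with hle | hle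
      · obtain ⟨n, hn⟩ : ∃ n, d - k = j + n := ⟨d - k - j, by omega⟩
        rw [hn, pow_add] at h5
        have h6 : r ^ j * (r ^ n + 1) = 0 := by linear_combination h5
        rcases mul_eq_zero.mp h6 with h7 | h7
        · exact pow_ne_zero _ hr h7
        · exact h2 n (by omega) (eq_neg_of_add_eq_zero_left h7)
      · obtain ⟨n, hn⟩ : ∃ n, j = (d - k) + n := ⟨j - (d - k), by omega⟩
        rw [hn, pow_add] at h5
        have h6 : r ^ (d - k) * (r ^ n + 1) = 0 := by linear_combination h5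
        rcases mul_eq_zero.mp h6 with h7 | h7
        · exact pow_ne_zero _ hr h7
        · exact h2 n (by omega) (eq_neg_of_add_eq_zero_left h7)
  intro j k hjk
  rcases lt_trichotomy (j : ℕ) (k : ℕ) with h | h | h
  · exact absurd hjk (key _ _ h (by omega))
  · exact Fin.ext h
  · exact absurd hjk.symm (key _ _ h (by omega))

/-- The form of the action of the second map on the eigenvectors of the first. -/
theorem FF_act (d : ℕ) (c r : K) (hr : r ≠ 0) (hc : c ≠ 0)
    (h1 : ∀ k, 1 ≤ k → k ≤ d → r ^ k ≠ 1) (h2 : ∀ k, k + 1 ≤ d → r ^ k ≠ -1)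
    (j : ℕ) (hj : j ≤ d) (hd : 1 ≤ d) :
    ∃ dn up : K, (j < d → dn ≠ 0) ∧ (0 < j → up ≠ 0) ∧ (j = d → dn = 0) ∧ (j = 0 → up = 0) ∧
      (TM d (-c ^ 2 * r ^ (d - 1)) r⁻¹).mulVec (vec d (FF d c r j))
        = dn • vec d (FF d c r (j + 1)) + up • vec d (FF d c r (j - 1)) := by
  have hcr : c * r⁻¹ ≠ 0 := mul_ne_zero hc (inv_ne_zero hr)
  have hodd : ∀ k, 1 ≤ k → k + 1 ≤ d → r ^ (2 * k) - 1 ≠ 0 := by
    intro k hk hkd h
    have h3 : (r ^ k - 1) * (r ^ k + 1) = 0 := by
      rw [mul_comm 2 k, pow_mul] at h; linear_combination h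
    rcases mul_eq_zero.mp h3 with h4 | h4
    · exact h1 k hk (by omega) (sub_eq_zero.mp h4)
    · exact h2 k hkd (eq_neg_of_add_eq_zero_left h4)
  rcases Nat.eq_zero_or_pos j with hj0 | hj0
  · subst hj0
    refine ⟨c * r⁻¹ * (r ^ d - 1), 0, ?_, by omega, by omega, fun _ => rfl, ?_⟩
    · intro _
      exact mul_ne_zero hcr (sub_ne_zero.mpr (h1 d hd le_rfl))
    · rw [FF_act_zero d c r hr hd, zero_smul, add_zero]
  · rcases Nat.lt_or_ge j d with hjd | hjd
    · obtain ⟨s, hs⟩ : ∃ s, j = s + 1 := ⟨j - 1, by omega⟩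
      obtain ⟨t, ht⟩ : ∃ t, s + t + 2 = d := ⟨d - s - 2, by omega⟩
      have hne : r ^ (s + 1) + r ^ (t + 1) ≠ 0 := by
        intro h
        rcases le_total s t with hle | hle
        · obtain ⟨n, hn⟩ : ∃ n, t = s + n := ⟨t - s, by omega⟩
          have h6 : r ^ (s + 1) * (r ^ n + 1) = 0 := by
            rw [hn] at h; linear_combination h
          rcases mul_eq_zero.mp h6 with h7 | h7
          · exact pow_ne_zero _ hr h7
          · exact h2 n (by omega) (eq_neg_of_add_eq_zero_left h7)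
        · obtain ⟨n, hn⟩ : ∃ n, s = t + n := ⟨s - t, by omega⟩
          have h6 : r ^ (t + 1) * (r ^ n + 1) = 0 := by
            rw [hn] at h; linear_combination h
          rcases mul_eq_zero.mp h6 with h7 | h7
          · exact pow_ne_zero _ hr h7
          · exact h2 n (by omega) (eq_neg_of_add_eq_zero_left h7)
      refine ⟨c * r⁻¹ * (r ^ (2 * (t + 1)) - 1) / (r ^ (s + 1) + r ^ (t + 1)),
        c * r⁻¹ * (1 - r ^ (2 * (s + 1))) / (r ^ (s + 1) + r ^ (t + 1)), ?_, ?_, by omega,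
        by omega, ?_⟩
      · intro _
        exact div_ne_zero (mul_ne_zero hcr (hodd (t + 1) (by omega) (by omega))) hne
      · intro _
        refine div_ne_zero (mul_ne_zero hcr ?_) hne
        have := hodd (s + 1) (by omega) (by omega)
        intro h; apply this; linear_combination -h
      · rw [hs, FF_act_mid d c r hr s t ht hne]
        rfl
    · have hjd' : j = d := by omega
      subst hjd'
      refine ⟨0, -(c * r⁻¹ * (r ^ j - 1)), by omega, ?_, fun _ => rfl, by omega, ?_⟩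
      · intro _
        exact neg_ne_zero.mpr (mul_ne_zero hcr (sub_ne_zero.mpr (h1 j hd le_rfl)))
      · rw [FF_act_top j c r hr hd, zero_smul, zero_add]

/-- The first map. -/
noncomputable def UU (d : ℕ) (c r : K) : (Fin (d + 1) → K) →ₗ[K] (Fin (d + 1) → K) :=
  Matrix.toLin' (TM d (c ^ 2) r)

/-- The second map. -/
noncomputable def WW (d : ℕ) (c r : K) : (Fin (d + 1) → K) →ₗ[K] (Fin (d + 1) → K) :=
  Matrix.toLin' (TM d (-c ^ 2 * r ^ (d - 1)) r⁻¹)

theorem exists_good_basis (d : ℕ) (c r : K) (hr : r ≠ 0) (hc : c ≠ 0)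
    (h1 : ∀ k, 1 ≤ k → k ≤ d → r ^ k ≠ 1) (h2 : ∀ k, k + 1 ≤ d → r ^ k ≠ -1) (hd : 1 ≤ d) :
    ∃ bF : Module.Basis (Fin (d + 1)) K (Fin (d + 1) → K),
      (∀ j, UU d c r (bF j) = (c * (r ^ (j : ℕ) - r ^ (d - (j : ℕ)))) • bF j) ∧
      (∀ k j : Fin (d + 1), LinearMap.toMatrix bF bF (WW d c r) k j ≠ 0 ↔
        ((k : ℕ) = j + 1 ∨ (j : ℕ) = k + 1)) := by
  have hv : ∀ j : Fin (d + 1), (UU d c r) (vec d (FF d c r j))
      = (c * (r ^ (j : ℕ) - r ^ (d - (j : ℕ)))) • vec d (FF d c r j) := by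
    intro j
    unfold UU
    rw [Matrix.toLin'_apply, FF_eig d c r j (by omega)]
  have hne : ∀ j : ℕ, vec d (FF d c r j) ≠ 0 := by
    intro j h
    have h3 := congrFun h ⟨0, by omega⟩
    unfold vec FF at h3
    simp only [mul_coeff_zero, PP_coeff_zero] at h3
    simp at h3
  have hli : LinearIndependent K (fun j : Fin (d + 1) => vec d (FF d c r j)) := by
    refine Module.End.eigenvectors_linearIndependent' (UU d c r) _
      (theta_inj d c r hr hc h1 h2) _ ?_
    intro j
    refine ⟨?_, hne j⟩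
    rw [Module.End.mem_eigenspace_iff]
    exact hv j
  obtain ⟨bF, hbF⟩ : ∃ bF : Module.Basis (Fin (d + 1)) K (Fin (d + 1) → K),
      ∀ j, bF j = vec d (FF d c r j) :=
    ⟨basisOfLinearIndependentOfCardEqFinrank hli (by simp), fun j => by simp⟩
  refine ⟨bF, ?_, ?_⟩
  · intro j; rw [hbF, hv]
  · intro k j
    obtain ⟨dn, up, hdn, hup, hdn0, hup0, hact⟩ := FF_act d c r hr hc h1 h2 j (by omega) hd
    have hW : (WW d c r) (bF j) = dn • vec d (FF d c r ((j : ℕ) + 1))
        + up • vec d (FF d c r ((j : ℕ) - 1)) := by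
      rw [hbF]; unfold WW; rw [Matrix.toLin'_apply, hact]
    have hcoef : LinearMap.toMatrix bF bF (WW d c r) k j
        = (if (k : ℕ) = j + 1 then dn else 0) + (if (j : ℕ) = k + 1 then up else 0) := by
      rw [LinearMap.toMatrix_apply, hW, map_add, map_smul, map_smul, Finsupp.add_apply,
        Finsupp.smul_apply, Finsupp.smul_apply]
      congr 1
      · by_cases hjd : (j : ℕ) = d
        · rw [hdn0 hjd, zero_smul, if_neg (by omega)]
        · have : vec d (FF d c r ((j : ℕ) + 1)) = bF ⟨(j : ℕ) + 1, by omega⟩ := by rw [hbF]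
          rw [this, Module.Basis.repr_self, Finsupp.single_apply]
          by_cases hk : (k : ℕ) = j + 1
          · rw [if_pos hk, if_pos (Fin.ext hk.symm), smul_eq_mul, mul_one]
          · rw [if_neg hk, if_neg (fun h => hk (congrArg Fin.val h).symm), smul_zero]
      · by_cases hj0 : (j : ℕ) = 0
        · rw [hup0 hj0, zero_smul, if_neg (by omega)]
        · have : vec d (FF d c r ((j : ℕ) - 1)) = bF ⟨(j : ℕ) - 1, by omega⟩ := by rw [hbF]
          rw [this, Module.Basis.repr_self, Finsupp.single_apply]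
          by_cases hk : (j : ℕ) = k + 1
          · rw [if_pos hk, if_pos (Fin.ext (by simp only; omega)), smul_eq_mul, mul_one]
          · rw [if_neg hk, if_neg (fun h => hk (by
              have := congrArg Fin.val h
              simp only at this
              omega)), smul_zero]
    rw [hcoef]
    constructor
    · intro h
      by_contra hcon
      push Not at hcon
      rw [if_neg hcon.1, if_neg hcon.2, add_zero] at h
      exact h rfl
    · rintro (h | h)
      · rw [if_pos h, if_neg (by omega), add_zero]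
        exact hdn (by omega)
      · rw [if_neg (by omega), if_pos h, zero_add]
        exact hup (by omega)

theorem theta_ratio (d : ℕ) (c r : K) (hr : r ≠ 0) (i : ℕ) (h : i + 3 ≤ d) :
    c * (r ^ i - r ^ (d - i)) - c * (r ^ (i + 3) - r ^ (d - (i + 3)))
      = (r + r⁻¹ + 1) * (c * (r ^ (i + 1) - r ^ (d - (i + 1)))
        - c * (r ^ (i + 2) - r ^ (d - (i + 2)))) := by
  obtain ⟨m, hm⟩ : ∃ m, d = i + 3 + m := ⟨d - (i + 3), by omega⟩
  have e0 : d - i = m + 3 := by omega
  have e1 : d - (i + 1) = m + 2 := by omega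
  have e2 : d - (i + 2) = m + 1 := by omega
  have e3 : d - (i + 3) = m := by omega
  rw [e0, e1, e2, e3]
  field_simp
  ring

theorem ratio_of_data (d : ℕ) (c r q : K) (hr : r ≠ 0)
    (hqr : q ^ 2 + (q ^ 2)⁻¹ = r + r⁻¹)
    (B C : (Fin (d + 1) → K) →ₗ[K] (Fin (d + 1) → K))
    (h : ∀ b : Module.Basis (Fin (d + 1)) K (Fin (d + 1) → K), IsStd B C b →
      ((∀ i : Fin (d + 1), LinearMap.toMatrix b b B i i
          = c * (r ^ (i : ℕ) - r ^ (d - (i : ℕ)))) ∨
       (∀ i : Fin (d + 1), LinearMap.toMatrix b b B i i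
          = c * (r ^ (d - (i : ℕ)) - r ^ (d - (d - (i : ℕ))))))) :
    RatioIs d B C q := by
  intro b hb i hi
  rw [hqr]
  unfold diagEntry
  rw [dif_pos (by omega : i < d + 1), dif_pos (by omega : i + 3 < d + 1),
    dif_pos (by omega : i + 1 < d + 1), dif_pos (by omega : i + 2 < d + 1)]
  rcases h b hb with h | h
  · rw [h, h, h, h]
    exact theta_ratio d c r hr i (by omega)
  · rw [h, h, h, h]
    simp only
    have := theta_ratio d c r hr i (by omega)
    rw [Nat.sub_sub_self (by omega : i ≤ d), Nat.sub_sub_self (by omega : i + 3 ≤ d),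
      Nat.sub_sub_self (by omega : i + 1 ≤ d), Nat.sub_sub_self (by omega : i + 2 ≤ d)]
    linear_combination -this

theorem admissible_std (d : ℕ) (a b r s : K) :
    Admissible (Matrix.toLin' (TM d a r)) (Matrix.toLin' (TM d b s))
      (Pi.basisFun K (Fin (d + 1))) := by
  have hT : ∀ a r : K, Tri (TM d a r) ∧ ∀ i, TM d a r i i = 0 := by
    intro a r
    constructor
    · intro i j h
      unfold TM at h
      by_cases h1 : (i : ℕ) + 1 = j
      · omega
      · rw [if_neg h1] at h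
        by_cases h2 : (i : ℕ) = j + 1
        · omega
        · rw [if_neg h2] at h; exact absurd rfl h
    · intro i
      unfold TM
      rw [if_neg (by omega), if_neg (by omega)]
  unfold Admissible
  rw [LinearMap.toMatrix_eq_toMatrix', LinearMap.toMatrix'_toLin', LinearMap.toMatrix'_toLin']
  exact ⟨hT a r, hT b s⟩

theorem TM_val (d : ℕ) (a r : K) (i j : ℕ) (hi : i < d + 1) (hj : j < d + 1) :
    TM d a r ⟨i, hi⟩ ⟨j, hj⟩ = if i + 1 = j then r ^ j - 1
      else if i = j + 1 then -a * (r ^ j - r ^ d) else 0 := rfl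

theorem TM_prod_low (d : ℕ) (hd : 3 ≤ d) (a b r s : K) :
    (TM d a r * TM d b s) ⟨2, by omega⟩ ⟨0, by omega⟩
      = (-a * (r ^ 1 - r ^ d)) * (-b * (s ^ 0 - s ^ d)) := by
  rw [Matrix.mul_apply, Finset.sum_eq_single ⟨1, by omega⟩]
  · rw [TM_val, TM_val]; simp
  · rintro ⟨k, hk'⟩ _ hk
    have hk1 : k ≠ 1 := fun h => hk (Fin.ext h)
    rw [TM_val d b s k 0, if_neg (by omega), if_neg (by omega), mul_zero]
  · intro hk; exact absurd (Finset.mem_univ _) hk

theorem TM_prod_up (d : ℕ) (hd : 3 ≤ d) (a b r s : K) :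
    (TM d a r * TM d b s) ⟨0, by omega⟩ ⟨2, by omega⟩ = (r ^ 1 - 1) * (s ^ 2 - 1) := by
  rw [Matrix.mul_apply, Finset.sum_eq_single ⟨1, by omega⟩]
  · rw [TM_val, TM_val]; simp
  · rintro ⟨k, hk'⟩ _ hk
    have hk1 : k ≠ 1 := fun h => hk (Fin.ext h)
    rw [TM_val d a r 0 k, if_neg (by omega), if_neg (by omega), zero_mul]
  · intro hk; exact absurd (Finset.mem_univ _) hk

theorem not_eigen (d : ℕ) (hd : 3 ≤ d) (a b r x : K) (hr : r ≠ 0) (ha : a ≠ 0) (hb : b ≠ 0)
    (h1 : ∀ k, 1 ≤ k → k ≤ d → r ^ k ≠ 1) (hx : x ≠ 0) (hxr : x ^ 2 = r ∨ x ^ 2 = r⁻¹) :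
    ¬ EigenBasis (x • (Matrix.toLin' (TM d a r) ∘ₗ Matrix.toLin' (TM d b r⁻¹))
      - x⁻¹ • (Matrix.toLin' (TM d b r⁻¹) ∘ₗ Matrix.toLin' (TM d a r)))
      (Pi.basisFun K (Fin (d + 1))) := by
  intro h
  have hmat : ∀ m n : Fin (d + 1), m ≠ n →
      x * (TM d a r * TM d b r⁻¹) m n - x⁻¹ * (TM d b r⁻¹ * TM d a r) m n = 0 := by
    intro m n hmn
    obtain ⟨μ, hμ⟩ := h n
    have h2 := congrFun hμ m
    rw [← Matrix.toLin'_mul, ← Matrix.toLin'_mul] at h2
    simp only [Pi.basisFun_apply, LinearMap.sub_apply, LinearMap.smul_apply,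
      Matrix.toLin'_apply, Matrix.mulVec_single_one, Pi.sub_apply, Pi.smul_apply, smul_eq_mul,
      Matrix.col_apply] at h2
    rw [h2, Pi.single_eq_of_ne hmn, mul_zero]
  have hr2 : r ^ 2 - 1 ≠ 0 := sub_ne_zero.mpr (h1 2 (by omega) (by omega))
  have hr1 : r - 1 ≠ 0 := by
    have := h1 1 le_rfl (by omega)
    rw [pow_one] at this
    exact sub_ne_zero.mpr this
  rcases hxr with hxr | hxr
  · have h3 := hmat ⟨2, by omega⟩ ⟨0, by omega⟩ (by simp)
    rw [TM_prod_low d hd, TM_prod_low d hd] at h3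
    have hrd : r ^ d - 1 ≠ 0 := sub_ne_zero.mpr (h1 d (by omega) le_rfl)
    obtain ⟨D, hD⟩ : ∃ D, d = D + 1 := ⟨d - 1, by omega⟩
    have hrD : r ^ D - 1 ≠ 0 := sub_ne_zero.mpr (h1 D (by omega) (by omega))
    subst hD
    have hrd0 : r ^ (D + 1) ≠ 0 := pow_ne_zero _ hr
    have h4 : a * b * (r ^ D - 1) * (r ^ (D + 1) - 1) * (r ^ 2 - 1) = 0 := by
      have h5 : x * (x * ((-a * (r ^ 1 - r ^ (D + 1))) * (-b * ((r⁻¹) ^ 0 - (r⁻¹) ^ (D + 1))))
          - x⁻¹ * ((-b * ((r⁻¹) ^ 1 - (r⁻¹) ^ (D + 1))) * (-a * (r ^ 0 - r ^ (D + 1)))))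
          * (r ^ (D + 1)) = 0 := by
        rw [h3]; ring
      have h6 : x * (x * ((-a * (r ^ 1 - r ^ (D + 1))) * (-b * ((r⁻¹) ^ 0 - (r⁻¹) ^ (D + 1))))
          - x⁻¹ * ((-b * ((r⁻¹) ^ 1 - (r⁻¹) ^ (D + 1))) * (-a * (r ^ 0 - r ^ (D + 1)))))
          * (r ^ (D + 1)) = x ^ 2 * (a * (r - r ^ (D + 1)) * b * (r ^ (D + 1) - 1))
            - (b * (r ^ D - 1) * a * (1 - r ^ (D + 1))) := by
        rw [inv_pow, inv_pow]
        field_simp
        ring
      rw [h6, hxr] at h5
      linear_combination -h5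
    have h5 := mul_ne_zero (mul_ne_zero (mul_ne_zero (mul_ne_zero ha hb) hrD) hrd) hr2
    exact h5 h4
  · have h3 := hmat ⟨0, by omega⟩ ⟨2, by omega⟩ (by simp)
    rw [TM_prod_up d hd, TM_prod_up d hd] at h3
    have h5 : x * (x * ((r ^ 1 - 1) * ((r⁻¹) ^ 2 - 1)) - x⁻¹ * (((r⁻¹) ^ 1 - 1) * (r ^ 2 - 1)))
        * r ^ 3 = 0 := by rw [h3]; ring
    have h6 : x * (x * ((r ^ 1 - 1) * ((r⁻¹) ^ 2 - 1)) - x⁻¹ * (((r⁻¹) ^ 1 - 1) * (r ^ 2 - 1)))
        * r ^ 3 = (x ^ 2 * ((r - 1) * (1 - r ^ 2)) * r + (r - 1) * (r ^ 2 - 1) * r ^ 2) := by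
      field_simp
      ring
    rw [h6, hxr] at h5
    have h7 : (r - 1) * (r ^ 2 - 1) * (r ^ 2 - 1) = 0 := by
      have h8 : (r⁻¹ * ((r - 1) * (1 - r ^ 2)) * r + (r - 1) * (r ^ 2 - 1) * r ^ 2)
          = (r - 1) * (r ^ 2 - 1) * (r ^ 2 - 1) := by
        field_simp
        ring
      rw [← h8]; exact h5
    exact mul_ne_zero (mul_ne_zero hr1 hr2) hr2 h7

end model

/-- The family, over an arbitrary field. -/
theorem family {K : Type u} [Field K] (d : ℕ) (hd : 3 ≤ d) (q ι : K) (hq : q ≠ 0)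
    (hι : ι ^ 2 = -1) (h1 : ∀ k, 1 ≤ k → k ≤ d → q ^ (2 * k) ≠ 1)
    (h2 : ∀ k, k + 1 ≤ d → q ^ (2 * k) ≠ -1) : HasCounterexample K d q := by
  have hr : q ^ 2 ≠ 0 := pow_ne_zero _ hq
  set r : K := q ^ 2 with hrdef
  have h1r : ∀ k, 1 ≤ k → k ≤ d → r ^ k ≠ 1 := by
    intro k hk hkd; rw [hrdef, ← pow_mul]; exact h1 k hk hkd
  have h2r : ∀ k, k + 1 ≤ d → r ^ k ≠ -1 := by
    intro k hkd; rw [hrdef, ← pow_mul]; exact h2 k hkd
  have h1s : ∀ k, 1 ≤ k → k ≤ d → r⁻¹ ^ k ≠ 1 := by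
    intro k hk hkd h; apply h1r k hk hkd; rw [inv_pow, inv_eq_one] at h; exact h
  have h2s : ∀ k, k + 1 ≤ d → r⁻¹ ^ k ≠ -1 := by
    intro k hkd h
    apply h2r k hkd
    rw [inv_pow] at h
    rw [← inv_inv (r ^ k), h, inv_neg, inv_one]
  have hι0 : ι ≠ 0 := by
    rintro rfl
    norm_num at hι
  set e : K := ι * q ^ (d - 1) with hedef
  have he0 : e ≠ 0 := mul_ne_zero hι0 (pow_ne_zero _ hq)
  have he2 : e ^ 2 = -1 ^ 2 * r ^ (d - 1) := by
    rw [hedef, mul_pow, hι, hrdef, ← pow_mul, ← pow_mul, Nat.mul_comm]; ring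
  have hUW : UU d e r⁻¹ = WW d 1 r := by
    unfold UU WW; rw [he2]
  have hWU : WW d e r⁻¹ = UU d 1 r := by
    unfold UU WW
    rw [he2, inv_inv, inv_pow]
    congr 2
    have := pow_ne_zero (d - 1) hr
    field_simp
  obtain ⟨b1, hb1, hb1'⟩ := exists_good_basis d 1 r hr one_ne_zero h1r h2r (by omega)
  obtain ⟨b2, hb2, hb2'⟩ := exists_good_basis d e r⁻¹ (inv_ne_zero hr) he0 h1s h2s (by omega)
  rw [hUW, hWU] at *
  have hinj1 := theta_inj d 1 r hr one_ne_zero h1r h2r
  have hinj2 := theta_inj d e r⁻¹ (inv_ne_zero hr) he0 h1s h2s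
  obtain ⟨hstd1, hall1⟩ := std_of_data (UU d 1 r) (WW d 1 r) b1 _ hinj1 hb1 hb1'
  obtain ⟨hstd2, hall2⟩ := std_of_data (WW d 1 r) (UU d 1 r) b2 _ hinj2 hb2 hb2'
  refine ⟨UU d 1 r, WW d 1 r, ⟨⟨b1, hstd1⟩, ⟨b2, hstd2⟩⟩, ⟨?_, ?_⟩, ⟨hq, ?_, ?_⟩,
    Pi.basisFun K (Fin (d + 1)), admissible_std d _ _ _ _, ?_⟩
  · intro b hb; exact (hall2 b hb).1
  · intro b hb; exact (hall1 b hb).1
  · exact ratio_of_data d 1 r q hr (by rw [hrdef]) _ _ (fun b hb => (hall1 b hb).2)
  · exact ratio_of_data d e r⁻¹ q (inv_ne_zero hr) (by rw [hrdef, inv_inv, add_comm]) _ _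
      (fun b hb => (hall2 b hb).2)
  · intro q' hq'
    obtain ⟨hq'0, hq'1, _⟩ := hq'
    have hq2 : (q' ^ 2) ≠ 0 := pow_ne_zero _ hq'0
    have hdiag : ∀ i : Fin (d + 1), LinearMap.toMatrix b1 b1 (UU d 1 r) i i
        = 1 * (r ^ (i : ℕ) - r ^ (d - (i : ℕ))) := by
      intro i
      rw [LinearMap.toMatrix_apply, hb1, map_smul, Finsupp.smul_apply, Module.Basis.repr_self,
        Finsupp.single_eq_same, smul_eq_mul, mul_one]
    have h3 := hq'1 b1 hstd1 0 (by omega)
    unfold diagEntry at h3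
    rw [dif_pos (by omega : 0 < d + 1), dif_pos (by omega : 0 + 3 < d + 1),
      dif_pos (by omega : 0 + 1 < d + 1), dif_pos (by omega : 0 + 2 < d + 1)] at h3
    rw [hdiag, hdiag, hdiag, hdiag] at h3
    simp only at h3
    have h4 := theta_ratio d 1 r hr 0 (by omega)
    rw [h3] at h4
    have hne : (1 * (r ^ (0 + 1) - r ^ (d - (0 + 1))) - 1 * (r ^ (0 + 2) - r ^ (d - (0 + 2)))) ≠ 0 := by
      rw [sub_ne_zero]
      intro h
      have h5 := @hinj1 ⟨1, by omega⟩ ⟨2, by omega⟩ h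
      simp at h5
    have h5 := mul_right_cancel₀ hne h4
    have h6 : (q' ^ 2 - r) * (q' ^ 2 - r⁻¹) = 0 := by
      have h7 : q' ^ 2 + (q' ^ 2)⁻¹ = r + r⁻¹ := by linear_combination h5
      have h8 : (q' ^ 2 - r) * (q' ^ 2 - r⁻¹) = q' ^ 2 * ((q' ^ 2 + (q' ^ 2)⁻¹) - (r + r⁻¹)) := by
        field_simp
        ring
      rw [h8, h7]; ring
    have hxr : q' ^ 2 = r ∨ q' ^ 2 = r⁻¹ := by
      rcases mul_eq_zero.mp h6 with h | h
      · left; exact sub_eq_zero.mp h
      · right; exact sub_eq_zero.mp h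
    have ha : (1 : K) ^ 2 ≠ 0 := by norm_num
    have hb : -(1 : K) ^ 2 * r ^ (d - 1) ≠ 0 :=
      mul_ne_zero (neg_ne_zero.mpr ha) (pow_ne_zero _ hr)
    constructor
    · exact not_eigen d hd _ _ r q' hr ha hb h1r hq'0 hxr
    · have := not_eigen d hd _ _ r q'⁻¹ hr ha hb h1r (inv_ne_zero hq'0) (by
        rcases hxr with h | h
        · right; rw [inv_pow, h]
        · left; rw [inv_pow, h, inv_inv])
      rw [inv_inv] at this
      exact this

/-- The statement of Q2 fails. -/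
theorem result :
    (∀ (K : Type u) [Field K] (d : ℕ) (q ι : K), 3 ≤ d → q ≠ 0 → ι ^ 2 = -1 →
      (∀ k, 1 ≤ k → k ≤ d → q ^ (2 * k) ≠ 1) → (∀ k, k + 1 ≤ d → q ^ (2 * k) ≠ -1) →
      HasCounterexample K d q) ∧
    (∀ d : ℕ, 3 ≤ d → HasCounterexample ℂ d 2) := by
  constructor
  · intro K _ d q ι hd hq hι h1 h2
    exact family d hd q ι hq hι h1 h2
  · intro d hd
    refine family d hd (2 : ℂ) Complex.I two_ne_zero Complex.I_sq ?_ ?_
    · intro k hk _ h
      have h3 : ((2 ^ (2 * k) : ℕ) : ℂ) = ((1 : ℕ) : ℂ) := by push_cast; exact h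
      have h4 := Nat.cast_injective h3
      have h5 : 1 < 2 ^ (2 * k) := Nat.one_lt_two_pow (by omega)
      omega
    · intro k _ h
      have h3 : (((2 : ℤ) ^ (2 * k) : ℤ) : ℂ) = ((-1 : ℤ) : ℂ) := by push_cast; exact h
      have h4 : (2 : ℤ) ^ (2 * k) = -1 := by exact_mod_cast h3
      have h5 : (0 : ℤ) < 2 ^ (2 * k) := by positivity
      omega

end Pool.Agent.Results.MP_54d771_al.MixedBasis
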